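import Mathlib
import Pool.Agent.H.MP_369736_co.Main

namespace Pool.Agent.Results.MP_369736_co.Proof

/-- The divisibility condition is sufficient for (r, t). -/
def Sufficient (r t : ℕ) : Prop :=
  ∀ n : Fin r → ℕ, (∀ i, 1 ≤ n i) →
    t ∣ Nat.card (SimpleGraph.completeMultipartiteGraph (fun i => Fin (n i))).edgeSet →
    ∃ F : Fin t → SimpleGraph (Σ i, Fin (n i)),
      (∀ a b, a ≠ b → Disjoint (F a) (F b)) ∧
      (⨆ a, F a) = SimpleGraph.completeMultipartiteGraph (fun i => Fin (n i)) ∧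
      ∀ a b, Nonempty (F a ≃g F b)

theorem result : Sufficient 4 3 ∧ ∃ r t : ℕ, 4 ≤ r ∧ 2 ≤ t ∧ Sufficient r t :=
  ⟨Pool.Agent.H.MP_369736_co.main, 4, 3, by norm_num, by norm_num, Pool.Agent.H.MP_369736_co.main⟩

end Pool.Agent.Results.MP_369736_co.Proof
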